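import Pool.Agent.Lib.MP_13404a_ag.PD.Main

namespace Pool.Agent.Variants.MP_13404a_ag.ProjectiveDegree

open Pool.Agent.Lib.MP_13404a_ag.UB
open scoped IntermediateField

/-- `k` is an algebraically closed differential field with constants `ℂ`, such as the algebraic
closure of the function field of a base curve, and `K` is the function field of the geometric
generic fibre, which the linear system `Ψ` maps to projective space as an immersed curve of degree
at most `n`. If the family is not isotrivial, `q` one-forms on the total space that are closed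
along `δ`, regular along the fibre and independent on it satisfy `q ≤ g / 2 + 5 n / 2`. -/
theorem result {k K : Type} [Field k] [IsAlgClosed k] [Algebra ℂ k] [Field K] [Algebra k K]
    [Algebra ℂ K] [IsScalarTower ℂ k K] (δ : Derivation ℂ k k)
    (hδ : ∀ y, δ y = 0 → ∃ c : ℂ, y = algebraMap ℂ k c)
    (hK : ∃ x : K, Transcendental k x ∧ FiniteDimensional k⟮x⟯ K) (hn : ¬ Isotrivial k K)
    {Ψ : Submodule k K} {n : ℕ} (hΨ : Immersion Ψ n) {q : ℕ}
    (ω : Fin q → Ω[K⁄ℂ]) (hc : ∀ i, ClosedAlong K δ (ω i)) (hr : ∀ i, ω i ∈ regAlong ℂ k K)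
    (hi : LinearIndependent k fun i => KaehlerDifferential.map ℂ k K K (ω i)) :
    2 * q ≤ Module.finrank k (regAlong k k K) + 5 * n :=
  main_pd δ hδ hK hn hΨ ω hc hr hi

end Pool.Agent.Variants.MP_13404a_ag.ProjectiveDegree
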