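import Pool.Agent.Lib.MP_13404a_ag.UB.Stm

namespace Pool.Agent.Variants.MP_13404a_ag.ThreeQuarters

open Pool.Agent.Lib.MP_13404a_ag.UB
open scoped IntermediateField

/-- `k` is the algebraic closure of the function field of the base, `K` the function field of the
geometric generic fibre. If the family is not isotrivial, `q` closed one-forms on the total space
that are regular along the fibre and independent on it satisfy `q ≤ 3 g / 4 + 3`. -/
theorem result {k K : Type} [Field k] [IsAlgClosed k] [Algebra ℂ k] [Field K] [Algebra k K]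
    [Algebra ℂ K] [IsScalarTower ℂ k K] (hk : Algebra.trdeg ℂ k < Cardinal.aleph0)
    (hK : ∃ x : K, Transcendental k x ∧ FiniteDimensional k⟮x⟯ K) (hn : ¬ Isotrivial k K) {q : ℕ}
    (ω : Fin q → Ω[K⁄ℂ]) (hc : ∀ i, Closed (ω i)) (hr : ∀ i, ω i ∈ regAlong ℂ k K)
    (hi : LinearIndependent k fun i => KaehlerDifferential.map ℂ k K K (ω i)) :
    4 * q ≤ 3 * Module.finrank k (regAlong k k K) + 12 :=
  main hk hK hn ω hc hr hi

end Pool.Agent.Variants.MP_13404a_ag.ThreeQuarters
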